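import Pool.Agent.N848.OL.Stm
import Pool.Agent.N700.LT.DEG

/-!
# Project OL (helper848), DGP (helper31): degrees of the composite (after LT/DEG of helper700)
-/

set_option autoImplicit false

namespace Pool.Agent.N31.OL

open NumberField IsDedekindDomain Module IntermediateField Polynomial

theorem gal (k F K : Type) [Field k] [NumberField k] [Field F] [NumberField F]
    [Field K] [NumberField K] [Algebra k K] [Algebra F K] (hG : IsGalois ℚ F)
    (htop : IntermediateField.adjoin k (Set.range (algebraMap F K)) = ⊤) : IsGalois k K := by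
  obtain ⟨T, hT₁, hT₂⟩ := IsGalois.is_separable_splitting_field ℚ F
  let T' := T.map (algebraMap ℚ k)
  suffices T'.IsSplittingField k K from
    IsGalois.of_separable_splitting_field (p := T') hT₁.map
  have hT₃ := isSplittingField_iff_intermediateField.1 hT₂
  rw [isSplittingField_iff_intermediateField]
  constructor
  · rw [Polynomial.map_map, ← IsScalarTower.algebraMap_eq]
    exact Polynomial.Splits.of_algHom hT₃.1 (IsScalarTower.toAlgHom ℚ F K)
  · have h' : T'.rootSet K = T.rootSet K := by simp [Set.ext_iff, Polynomial.mem_rootSet', T']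
    rw [h', eq_top_iff, ← htop, adjoin_le_iff]
    rintro _ ⟨x, rfl⟩
    have h1 : IntermediateField.adjoin ℚ (T.rootSet F) ≤
        ((IntermediateField.adjoin k (T.rootSet K)).restrictScalars ℚ).comap
          (IsScalarTower.toAlgHom ℚ F K) := by
      rw [adjoin_le_iff]
      intro y hy
      have h2 : algebraMap F K y ∈ T.rootSet K := by
        have hT0 : T ≠ 0 := hT₁.ne_zero
        rw [Polynomial.mem_rootSet_of_ne hT0] at hy ⊢
        rw [Polynomial.aeval_algebraMap_apply, hy, map_zero]
      exact subset_adjoin k _ h2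
    rw [hT₃.2] at h1
    exact h1 (x := x) trivial

theorem t_DGP : Pool.Agent.N848.OL.S_DGP := by
  intro p _ r k F K _ _ _ _ _ _ _ _ hG h2 h3 h4
  have hp : p.Prime := Fact.out
  have e1 : finrank ℚ k * finrank k K = finrank ℚ K := finrank_mul_finrank ℚ k K
  have e2 : finrank ℚ F * finrank F K = finrank ℚ K := finrank_mul_finrank ℚ F K
  have e3 := Pool.Agent.N700.LT.deg_le k F K h3
  rw [h2] at e2 e3
  have e4 : p ^ r ∣ finrank k K := by
    have h5 : p ^ r ∣ finrank ℚ k * finrank k K := ⟨_, e1.trans e2.symm⟩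
    have h6 : Nat.Coprime (p ^ r) (finrank ℚ k) :=
      Nat.Coprime.pow_left r ((Nat.Prime.coprime_iff_not_dvd hp).2 h4)
    exact h6.dvd_of_dvd_mul_left h5
  have e5 : 0 < finrank k K := finrank_pos
  have e6 : finrank k K = p ^ r := le_antisymm e3 (Nat.le_of_dvd e5 e4)
  refine ⟨?_, e6, gal k F K hG h3⟩
  rw [e6, mul_comm, ← e2] at e1
  exact (Nat.eq_of_mul_eq_mul_left (pow_pos hp.pos r) e1).symm

end Pool.Agent.N31.OL
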